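import Pool.Agent.Y655.NS.Count
import Pool.Agent.Y529.NS.AltM

/-!
`S_B2M` and `S_FINM`: the final counting with absolute constants (job 525 for helper8; the
proofs follow `t_B2L` and `t_FINL` of `Pool.Agent.Y655.NS.Count`).
-/

open MeasureTheory Set Metric
open scoped ContDiff

namespace Pool.Agent.Y529.NS

open H459R3.NS W221.NS Pool.Agent.Y8 Pool.Agent.Y655.NS

theorem t_B2M (hA : S_ALTM) (hC : S_C12) (hF : S_CFPM) : S_B2M := by
  obtain ⟨δ, c, δ₁, κ₀, hδ, hc, hδ₁, hA⟩ := hA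
  obtain ⟨C₁, hC₁, h12⟩ := hC
  obtain ⟨C₂, δ₂, hC₂, hδ₂, hF⟩ := hF δ c κ₀ hδ hc
  refine ⟨C₁ / δ + C₁ * 2 ^ κ₀ / δ + 2 * C₂, min δ₁ δ₂, by positivity, lt_min hδ₁ hδ₂, ?_⟩
  intro T E D G u p hu n j hn S hS hz
  classical
  have hn1 := hn.trans (min_le_left _ _)
  have hn2 := hn.trans (min_le_right _ _)
  have hr := rr_pos500 n
  have hri := rr_inv500 n
  have hD := turb_D hu
  set W : ℝ := (E ^ 2 * 2 ^ n) ^ (2 / 3 : ℝ) * (2 : ℝ) ^ (-(20 / 3 : ℝ) * j) * 2 ^ n with hW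
  have hW0 : 0 ≤ W := by positivity
  set P2 : ℝ × V → Prop := fun z => δ / rr n ≤ ∫ t in II n z.1, NN2 n (u t) z.2
  set P1 : ℝ × V → Prop := fun z =>
    δ * (4 ^ j / rr n) ≤ ∫ t in II n z.1, NN1 n (2 * j + κ₀) (u t) z.2
  set PF : ℝ × V → Prop := fun z =>
    δ * (4 ^ j / rr n) ≤ ∫ t in II n z.1, NF n (2 * j + κ₀) (u t) z.2
  set PM : ℝ × V → Prop := fun z =>
    c * (rr n ^ 2 * (4 ^ j / rr n)) ≤ ∫ t in II n z.1, ‖mo (rr n) (u t) z.2‖
  have hcov : S ⊆ (S.filter P2 ∪ S.filter P1) ∪ (S.filter PF ∪ S.filter PM) := by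
    intro z hzS
    simp only [Finset.mem_union, Finset.mem_filter]
    obtain ⟨h1, h2, h3, X, Y, B, C', hX, hX0, hX1⟩ := hz z hzS
    rcases hA T E D G u p hu n j hn1 z.1 z.2 h1 h2 X Y B C' hX hX0 hX1 with h4 | h4 | h4 | h4
    · exact Or.inl (Or.inl ⟨hzS, h4⟩)
    · exact Or.inl (Or.inr ⟨hzS, h4⟩)
    · exact Or.inr (Or.inl ⟨hzS, h4⟩)
    · exact Or.inr (Or.inr ⟨hzS, h4⟩)
  have hbox : ∀ P : ℝ × V → Prop, ∀ z ∈ S.filter P,
      0 ≤ z.1 - rr n ^ 2 ∧ z.1 + rr n ^ 2 ≤ T ∧ z.2 ∈ cube := by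
    intro P z hzS
    obtain ⟨h1, h2, h3, -⟩ := hz z (Finset.mem_filter.1 hzS).1
    exact ⟨h1.le, h2.le, h3⟩
  have hsep : ∀ P : ℝ × V → Prop, Sep (rr n) (S.filter P) := fun P =>
    sep_mono500 hS (Finset.filter_subset _ _)
  -- class 2
  have c2 : ((S.filter P2).card : ℝ) ≤ C₁ * D / δ * 2 ^ n := by
    have h1 := (h12 T E D G u p hu n (S.filter P2) (hsep P2) (hbox P2)).1
    have h2 := markov500 (a := δ / rr n) (by positivity)
      (fun z hzS => (Finset.mem_filter.1 hzS).2) h1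
    refine h2.trans (le_of_eq ?_)
    rw [← hri]
    field_simp
  -- class 1
  have c1 : ((S.filter P1).card : ℝ) ≤ C₁ * 2 ^ κ₀ * D / δ * 2 ^ n := by
    have h1 := (h12 T E D G u p hu n (S.filter P1) (hsep P1) (hbox P1)).2 (2 * j + κ₀)
    have h2 := markov500 (a := δ * (4 ^ j / rr n)) (by positivity)
      (fun z hzS => (Finset.mem_filter.1 hzS).2) h1
    refine h2.trans (le_of_eq ?_)
    rw [← hri]
    have h4 : (2 : ℝ) ^ (2 * j + κ₀) = 4 ^ j * 2 ^ κ₀ := by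
      rw [pow_add, pow_mul]; norm_num
    rw [h4]
    field_simp
  -- classes 3 and 4
  have cF : ((S.filter PF).card : ℝ) ≤ C₂ * D * W :=
    hF T E D G u p hu n j hn2 (S.filter PF) (hsep PF) (hbox PF)
      (Or.inl fun z hzS => (Finset.mem_filter.1 hzS).2)
  have cM : ((S.filter PM).card : ℝ) ≤ C₂ * D * W :=
    hF T E D G u p hu n j hn2 (S.filter PM) (hsep PM) (hbox PM)
      (Or.inr fun z hzS => (Finset.mem_filter.1 hzS).2)
  have hcard : (S.card : ℝ) ≤ (S.filter P2).card + (S.filter P1).card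
      + ((S.filter PF).card + (S.filter PM).card) := by
    have h1 := Finset.card_le_card hcov
    have h2 := Finset.card_union_le (S.filter P2 ∪ S.filter P1) (S.filter PF ∪ S.filter PM)
    have h3 := Finset.card_union_le (S.filter P2) (S.filter P1)
    have h4 := Finset.card_union_le (S.filter PF) (S.filter PM)
    have h5 : S.card ≤ (S.filter P2).card + (S.filter P1).card
      + ((S.filter PF).card + (S.filter PM).card) := by omega
    exact_mod_cast h5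
  refine hcard.trans ?_
  have h2n : (0 : ℝ) < 2 ^ n := by positivity
  have ha : 0 ≤ C₁ / δ * D := by positivity
  have hb : 0 ≤ C₁ * 2 ^ κ₀ / δ * D := by positivity
  have hc : 0 ≤ C₂ * D := by positivity
  have e1 : C₁ * D / δ * 2 ^ n = C₁ / δ * D * 2 ^ n := by ring
  have e2 : C₁ * 2 ^ κ₀ * D / δ * 2 ^ n = C₁ * 2 ^ κ₀ / δ * D * 2 ^ n := by ring
  rw [e1] at c2
  rw [e2] at c1
  have e3 : (C₁ / δ + C₁ * 2 ^ κ₀ / δ + 2 * C₂) * D * (2 ^ n + W) =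
      C₁ / δ * D * 2 ^ n + C₁ * 2 ^ κ₀ / δ * D * 2 ^ n + 2 * (C₂ * D * W)
        + (C₁ / δ * D * W + C₁ * 2 ^ κ₀ / δ * D * W + 2 * (C₂ * D * 2 ^ n)) := by ring
  rw [e3]
  have e4 : 0 ≤ C₁ / δ * D * W + C₁ * 2 ^ κ₀ / δ * D * W + 2 * (C₂ * D * 2 ^ n) := by positivity
  linarith

/-- The choice of the number `j`. -/
lemma exists_j {A : ℝ} (hA : 0 ≤ A) : ∃ j : ℕ,
    A ^ (2 / 3 : ℝ) * (2 : ℝ) ^ (-(20 / 3 : ℝ) * j) ≤ 2 ^ j ∧
      (2 : ℝ) ^ j ≤ 2 * (1 + A ^ (2 / 23 : ℝ)) := by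
  classical
  have hA2 : 0 ≤ A ^ (2 / 23 : ℝ) := by positivity
  have hex : ∃ j : ℕ, A ^ (2 / 23 : ℝ) ≤ 2 ^ j := by
    obtain ⟨j, hj⟩ := pow_unbounded_of_one_lt (A ^ (2 / 23 : ℝ)) (one_lt_two (α := ℝ))
    exact ⟨j, hj.le⟩
  set j := Nat.find hex with hj
  have h1 : A ^ (2 / 23 : ℝ) ≤ 2 ^ j := Nat.find_spec hex
  refine ⟨j, ?_, ?_⟩
  · have h2 : A ^ (2 / 3 : ℝ) ≤ ((2 : ℝ) ^ j) ^ (23 / 3 : ℝ) := by
      have h3 := Real.rpow_le_rpow hA2 h1 (by norm_num : (0 : ℝ) ≤ 23 / 3)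
      rw [← Real.rpow_mul hA] at h3
      norm_num at h3
      norm_num
      exact h3
    have h4 : ((2 : ℝ) ^ j) ^ (23 / 3 : ℝ) * (2 : ℝ) ^ (-(20 / 3 : ℝ) * j) = 2 ^ j := by
      rw [← Real.rpow_natCast, ← Real.rpow_mul (by norm_num), ← Real.rpow_add (by norm_num)]
      congr 1
      ring
    rw [← h4]
    exact mul_le_mul_of_nonneg_right h2 (by positivity)
  · rcases Nat.eq_zero_or_pos j with h5 | h5
    · rw [h5]
      norm_num
      linarith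
    · have h6 : j - 1 < j := by omega
      have h7 : ¬ A ^ (2 / 23 : ℝ) ≤ 2 ^ (j - 1) := Nat.find_min hex h6
      have h8 : (2 : ℝ) ^ j = 2 * 2 ^ (j - 1) := by
        rw [← pow_succ']
        congr 1
        omega
      rw [h8]
      linarith [not_le.1 h7]

theorem t_FINM (hP : S_WPATH) (h1 : S_B1M) (h2 : S_B2M) : S_FINM := by
  obtain ⟨K, hK, hP⟩ := hP
  obtain ⟨C₁, hC₁, h1⟩ := h1
  obtain ⟨C₂, δ₂, hC₂, hδ₂, h2⟩ := h2
  set A : ℝ := C₁ + 2 * C₂ with hA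
  have hA0 : 0 < A := by positivity
  refine ⟨8 * A, min δ₂ (1 / 32), by positivity, by positivity, ?_⟩
  intro T E D G u p hu r hr hrs S hS hz
  classical
  have hD := turb_D hu
  have hr1 : r ≤ 1 := by
    have h3 := hrs.trans (min_le_right _ _)
    have h4 : 0 ≤ E ^ 2 * r := by positivity
    linarith
  obtain ⟨n, hn1, hn2⟩ : ∃ n : ℕ, rr n ≤ r ∧ r < 2 * rr n := by
    obtain ⟨n, h3, h4⟩ := exists_nat_pow_near_of_lt_one hr hr1 (show (0 : ℝ) < 1 / 2 by norm_num)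
      (show (1 / 2 : ℝ) < 1 by norm_num)
    rcases h4.lt_or_eq with h5 | h5
    · refine ⟨n + 1, h3.le, ?_⟩
      have : 2 * rr (n + 1) = rr n := by unfold rr; ring
      rw [this]
      exact h5
    · refine ⟨n, h5.ge, ?_⟩
      have h6 := rr_pos500 n
      rw [h5]
      change rr n < 2 * rr n
      linarith
  have hrn := rr_pos500 n
  have hsm : (1 + E ^ 2) * rr n ≤ min δ₂ (1 / 32) :=
    (mul_le_mul_of_nonneg_left hn1 (by positivity)).trans hrs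
  have hn4 : 4 ≤ n := (five_le_of_small (hsm.trans (min_le_right _ _))).trans' (by norm_num)
  have hsq : rr n ^ 2 ≤ r ^ 2 := pow_le_pow_left₀ hrn.le hn1 2
  have hSn : Sep (rr n) S := sep_le500 hS hrn.le hn1
  have hE0 : 0 ≤ E ^ 2 * 2 ^ n := by positivity
  obtain ⟨j, hj1, hj2⟩ := exists_j hE0
  have hrJ : 0 < rr (n + j) := rr_pos500 _
  have hrJ1 : rr (n + j) ≤ 1 := pow_le_one₀ (by norm_num) (by norm_num)
  obtain ⟨Cp, hCp, hP⟩ := hP E (rr (n + j)) hrJ hrJ1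
  set St : ℝ × V → Prop := fun z => ∃ (X Y : ℝ → V) (B C' : ℝ),
    FPath T (rr (n + j)) B C' G u p X Y ∧ X z.1 = z.2 ∧
      ∀ t, |t - z.1| < rr (n + j) ^ 2 → ‖X t - z.2‖ ≤ rr n with hSt
  have c1 : ((S.filter St).card : ℝ) ≤ C₁ * D * 2 ^ (n + j) := by
    refine h1 T E D G u p hu n j hn4 (S.filter St) (sep_mono500 hSn (Finset.filter_subset _ _)) ?_
    intro z hzS
    obtain ⟨hz1, hz2⟩ := Finset.mem_filter.1 hzS
    obtain ⟨h6, h7, h4, h5⟩ := hz z hz1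
    exact ⟨by linarith, by linarith, h4, h5, hz2⟩
  have c2 : ((S.filter (fun z => ¬ St z)).card : ℝ)
      ≤ C₂ * D * (2 ^ n + (E ^ 2 * 2 ^ n) ^ (2 / 3 : ℝ)
          * (2 : ℝ) ^ (-(20 / 3 : ℝ) * j) * 2 ^ n) := by
    refine h2 T E D G u p hu n j (hsm.trans (min_le_left _ _)) _
      (sep_mono500 hSn (Finset.filter_subset _ _)) ?_
    intro z hzS
    obtain ⟨hz1, hz2⟩ := Finset.mem_filter.1 hzS
    obtain ⟨h6, h7, h4, h5⟩ := hz z hz1
    have hr2 : 0 < rr n ^ 2 := pow_pos hrn 2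
    obtain ⟨X, Y, hX0, hX⟩ := hP T D G u p hu z.1 ⟨by linarith, by linarith⟩ z.2
    refine ⟨by linarith, by linarith, h4, X, Y, _, _, hX, hX0, ?_⟩
    by_contra hcon
    push Not at hcon
    exact hz2 ⟨X, Y, _, _, hX, hX0, hcon⟩
  have hcard : (S.card : ℝ) = (S.filter St).card + (S.filter (fun z => ¬ St z)).card := by
    have := Finset.card_filter_add_card_filter_not (s := S) St
    exact_mod_cast this.symm
  have h2n : (0 : ℝ) < 2 ^ n := by positivity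
  have h1j : (1 : ℝ) ≤ 2 ^ j := one_le_pow₀ (by norm_num)
  -- the count in terms of `j`
  have e1 : (S.card : ℝ) ≤ A * D * (2 ^ n * 2 ^ j) := by
    have e2 : C₁ * D * 2 ^ (n + j) = C₁ * D * (2 ^ n * 2 ^ j) := by rw [pow_add]
    have e3 : (2 : ℝ) ^ n + (E ^ 2 * 2 ^ n) ^ (2 / 3 : ℝ)
          * (2 : ℝ) ^ (-(20 / 3 : ℝ) * j) * 2 ^ n ≤ 2 * (2 ^ n * 2 ^ j) := by
      have e4 : (E ^ 2 * 2 ^ n) ^ (2 / 3 : ℝ) * (2 : ℝ) ^ (-(20 / 3 : ℝ) * j) * 2 ^ n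
          ≤ 2 ^ j * 2 ^ n := mul_le_mul_of_nonneg_right hj1 h2n.le
      have e5 : (2 : ℝ) ^ n * 1 ≤ 2 ^ n * 2 ^ j := mul_le_mul_of_nonneg_left h1j h2n.le
      linarith
    have e6 := mul_le_mul_of_nonneg_left e3 (by positivity : 0 ≤ C₂ * D)
    rw [hcard, hA]
    rw [e2] at c1
    linarith
  have e7 : (2 : ℝ) ^ n * r ≤ 2 := by
    rw [← rr_inv500, inv_mul_le_iff₀ hrn]
    linarith
  have e8 : (E ^ 2 * 2 ^ n) ^ (2 / 23 : ℝ) ≤ 2 * (E ^ 2 / r) ^ (2 / 23 : ℝ) := by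
    have h6 : (2 : ℝ) ^ n ≤ 2 / r := by
      rw [le_div_iff₀ hr]
      exact e7
    have h7 : E ^ 2 * 2 ^ n ≤ 2 * (E ^ 2 / r) := by
      calc E ^ 2 * 2 ^ n ≤ E ^ 2 * (2 / r) := mul_le_mul_of_nonneg_left h6 (by positivity)
        _ = 2 * (E ^ 2 / r) := by ring
    have h8 := Real.rpow_le_rpow hE0 h7 (by norm_num : (0 : ℝ) ≤ 2 / 23)
    have hEr : 0 ≤ E ^ 2 / r := by positivity
    rw [Real.mul_rpow (by norm_num) hEr] at h8
    have h9 : (2 : ℝ) ^ (2 / 23 : ℝ) ≤ 2 := by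
      calc (2 : ℝ) ^ (2 / 23 : ℝ) ≤ (2 : ℝ) ^ (1 : ℝ) :=
            Real.rpow_le_rpow_of_exponent_le (by norm_num) (by norm_num)
        _ = 2 := by norm_num
    exact h8.trans (mul_le_mul_of_nonneg_right h9 (Real.rpow_nonneg hEr _))
  set Z : ℝ := (E ^ 2 / r) ^ (2 / 23 : ℝ) with hZ
  have hZ0 : 0 ≤ Z := by positivity
  calc (S.card : ℝ) * r ≤ A * D * (2 ^ n * 2 ^ j) * r := mul_le_mul_of_nonneg_right e1 hr.le
    _ = A * D * ((2 ^ n * r) * 2 ^ j) := by ring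
    _ ≤ A * D * (2 * (2 * (1 + 2 * Z))) := by
        refine mul_le_mul_of_nonneg_left ?_ (by positivity)
        exact mul_le_mul e7 (hj2.trans (by linarith)) (by positivity) (by norm_num)
    _ ≤ 8 * A * D * (1 + Z) := by
        have h9 : 0 ≤ A * D := by positivity
        nlinarith

end Pool.Agent.Y529.NS
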